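import Pool.Agent.Helper61.CAR.GoalsQ

open Pool.Agent.Helper61.CAR Pool.Agent.Helper34.CAR

namespace Pool.Agent.Helper36.CAR

/-- One step of the ladder. -/
noncomputable def step {H : Type} [NormedAddCommGroup H] [InnerProductSpace ℂ H]
    [CompleteSpace H] (S : Finset (H →L[ℂ] H)) (W : Submodule ℂ H) : Submodule ℂ H :=
  W ⊔ S.sup fun a => W.map (a : H →ₗ[ℂ] H) ⊔ W.map ((star a : H →L[ℂ] H) : H →ₗ[ℂ] H)

theorem step_finite {H : Type} [NormedAddCommGroup H] [InnerProductSpace ℂ H]
    [CompleteSpace H] (S : Finset (H →L[ℂ] H)) (W : Submodule ℂ H)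
    (hW : FiniteDimensional ℂ W) : FiniteDimensional ℂ (step S W) := by
  classical
  have h : ∀ T : Finset (H →L[ℂ] H), FiniteDimensional ℂ
      (T.sup fun a => W.map (a : H →ₗ[ℂ] H) ⊔
        W.map ((star a : H →L[ℂ] H) : H →ₗ[ℂ] H) : Submodule ℂ H) := by
    intro T
    induction T using Finset.induction_on with
    | empty =>
      rw [Finset.sup_empty]
      infer_instance
    | insert a T ha ih =>
      rw [Finset.sup_insert]
      have := ih
      infer_instance
  have h1 := h S
  unfold step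
  infer_instance

theorem ladr : S_LADR := by
  intro H _ _ _ S V₀ hV
  refine ⟨fun q => (step S)^[q] V₀, rfl, ?_, ?_, ?_⟩
  · refine monotone_nat_of_le_succ fun q => ?_
    show (step S)^[q] V₀ ≤ (step S)^[q + 1] V₀
    rw [Function.iterate_succ_apply']
    exact le_sup_left
  · intro q
    induction q with
    | zero => exact hV
    | succ q ih =>
      show FiniteDimensional ℂ ((step S)^[q + 1] V₀ : Submodule ℂ H)
      rw [Function.iterate_succ_apply']
      exact step_finite S _ ih
  · intro a ha q x hx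
    have key : ((step S)^[q] V₀).map (a : H →ₗ[ℂ] H) ⊔
        ((step S)^[q] V₀).map ((star a : H →L[ℂ] H) : H →ₗ[ℂ] H) ≤
        (step S)^[q + 1] V₀ := by
      rw [Function.iterate_succ_apply']
      refine le_trans ?_ le_sup_right
      exact Finset.le_sup (f := fun a : H →L[ℂ] H =>
        ((step S)^[q] V₀).map (a : H →ₗ[ℂ] H) ⊔
          ((step S)^[q] V₀).map ((star a : H →L[ℂ] H) : H →ₗ[ℂ] H)) ha
    refine ⟨key ?_, key ?_⟩
    · exact le_sup_left (a := ((step S)^[q] V₀).map (a : H →ₗ[ℂ] H))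
        (Submodule.mem_map.2 ⟨x, hx, rfl⟩)
    · exact le_sup_right (a := ((step S)^[q] V₀).map (a : H →ₗ[ℂ] H))
        (Submodule.mem_map.2 ⟨x, hx, rfl⟩)

end Pool.Agent.Helper36.CAR
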