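import Pool.Agent.Helper34.CAR.GoalsA

open scoped ComplexOrder ZeroAtInfty
open Pool.Agent.Helper34.CAR

namespace Pool.Agent.Helper36.CAR

variable {E : Type} [NonUnitalCStarAlgebra E]

/-- The function `x - y` on `t ≥ 0` and `0` on `t ≤ 0`. -/
noncomputable def rotW (P M : C₀(ℝ, E) →⋆ₙₐ[ℂ] C₀(ℝ, E)) (f : C₀(ℝ, E)) : C₀(ℝ, E) :=
  (1 / 2 : ℂ) • ((M f - P f) + (flip E f - f))

theorem rotW_pos {P M : C₀(ℝ, E) →⋆ₙₐ[ℂ] C₀(ℝ, E)} (hP : ∀ f t, P f t = f |t|)
    (hM : ∀ f t, M f t = f (-|t|)) (f : C₀(ℝ, E)) {t : ℝ} (ht : 0 ≤ t) :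
    rotW P M f t = f (-t) - f t := by
  show (1 / 2 : ℂ) • ((M f t - P f t) + (flip E f t - f t)) = _
  rw [hP, hM, flip_apply, abs_of_nonneg ht]
  module

theorem rotW_neg {P M : C₀(ℝ, E) →⋆ₙₐ[ℂ] C₀(ℝ, E)} (hP : ∀ f t, P f t = f |t|)
    (hM : ∀ f t, M f t = f (-|t|)) (f : C₀(ℝ, E)) {t : ℝ} (ht : t ≤ 0) :
    rotW P M f t = 0 := by
  show (1 / 2 : ℂ) • ((M f t - P f t) + (flip E f t - f t)) = _
  rw [hP, hM, flip_apply, abs_of_nonpos ht, neg_neg]
  module

theorem rotW_add (P M : C₀(ℝ, E) →⋆ₙₐ[ℂ] C₀(ℝ, E)) (f g : C₀(ℝ, E)) :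
    rotW P M (f + g) = rotW P M f + rotW P M g := by
  unfold rotW
  simp only [map_add]
  module

theorem rotW_smul (P M : C₀(ℝ, E) →⋆ₙₐ[ℂ] C₀(ℝ, E)) (c : ℂ) (f : C₀(ℝ, E)) :
    rotW P M (c • f) = c • rotW P M f := by
  unfold rotW
  simp only [map_smul]
  module

theorem rotW_star (P M : C₀(ℝ, E) →⋆ₙₐ[ℂ] C₀(ℝ, E)) (f : C₀(ℝ, E)) :
    rotW P M (star f) = star (rotW P M f) := by
  unfold rotW
  rw [star_smul, star_add, star_sub, star_sub, map_star, map_star, map_star]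
  congr 1
  simp

/-- The entries of the rotated homomorphism; `p` is the square of the sine, `q` the product of
sine and cosine. -/
noncomputable def rotE (P M : C₀(ℝ, E) →⋆ₙₐ[ℂ] C₀(ℝ, E)) (p q : ℝ) (i j : Fin 2)
    (f : C₀(ℝ, E)) : C₀(ℝ, E) :=
  if i = j then (if i = 0 then flip E f - (p : ℂ) • rotW P M f else f + (p : ℂ) • rotW P M f)
  else (q : ℂ) • rotW P M f

theorem rotE_add (P M : C₀(ℝ, E) →⋆ₙₐ[ℂ] C₀(ℝ, E)) (p q : ℝ) (i j : Fin 2) (f g : C₀(ℝ, E)) :
    rotE P M p q i j (f + g) = rotE P M p q i j f + rotE P M p q i j g := by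
  unfold rotE
  split_ifs <;> simp only [rotW_add, map_add] <;> module

theorem rotE_smul (P M : C₀(ℝ, E) →⋆ₙₐ[ℂ] C₀(ℝ, E)) (p q : ℝ) (i j : Fin 2) (c : ℂ)
    (f : C₀(ℝ, E)) :
    rotE P M p q i j (c • f) = c • rotE P M p q i j f := by
  unfold rotE
  split_ifs <;> simp only [rotW_smul, map_smul] <;> module

theorem rotE_star (P M : C₀(ℝ, E) →⋆ₙₐ[ℂ] C₀(ℝ, E)) (p q : ℝ) (i j : Fin 2)
    (f : C₀(ℝ, E)) :
    rotE P M p q i j (star f) = star (rotE P M p q j i f) := by
  unfold rotE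
  by_cases h : i = j
  · subst h
    rw [if_pos rfl, if_pos rfl]
    split_ifs
    · rw [rotW_star, map_star, star_sub, star_smul]
      simp
    · rw [rotW_star, star_add, star_smul]
      simp
  · rw [if_neg h, if_neg (fun h' => h h'.symm), rotW_star, star_smul]
    simp

theorem rotE_mul_apply {P M : C₀(ℝ, E) →⋆ₙₐ[ℂ] C₀(ℝ, E)} (hP : ∀ f t, P f t = f |t|)
    (hM : ∀ f t, M f t = f (-|t|)) {p q : ℝ} (h : q ^ 2 = p * (1 - p)) (i j : Fin 2)
    (f g : C₀(ℝ, E)) (t : ℝ) :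
    rotE P M p q i j (f * g) t = ∑ k, rotE P M p q i k f t * rotE P M p q k j g t := by
  have h' : ((q : ℂ)) ^ 2 = p * (1 - p) := by exact_mod_cast h
  have hv : ∀ (i j : Fin 2) (f : C₀(ℝ, E)), rotE P M p q i j f t =
      if i = j then (if i = 0 then f (-t) - (p : ℂ) • rotW P M f t
        else f t + (p : ℂ) • rotW P M f t)
      else (q : ℂ) • rotW P M f t := by
    intro i j f
    unfold rotE
    split_ifs <;> rfl
  have h2 : ∀ i : Fin 2, i = 0 ∨ i = 1 := by decide
  rw [Fin.sum_univ_two]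
  rcases le_total 0 t with ht | ht
  · have hW : ∀ f : C₀(ℝ, E), rotW P M f t = f (-t) - f t := fun f => rotW_pos hP hM f ht
    have hfg1 : (f * g) t = f t * g t := rfl
    have hfg2 : (f * g) (-t) = f (-t) * g (-t) := rfl
    simp only [hv, hW, hfg1, hfg2]
    generalize f t = y
    generalize f (-t) = x
    generalize g t = y'
    generalize g (-t) = x'
    rcases h2 i with rfl | rfl <;> rcases h2 j with rfl | rfl
    · simp only [if_true, one_ne_zero, zero_ne_one,
        if_false, sub_mul, mul_sub, smul_mul_assoc, mul_smul_comm, smul_sub, smul_smul]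
      linear_combination (norm := module) (-h') • (x * x' - x * y' - y * x' + y * y')
    · simp only [if_true, one_ne_zero, zero_ne_one,
        if_false, sub_mul, mul_sub, smul_mul_assoc, mul_smul_comm, smul_sub, smul_smul, mul_add,
        add_mul]
      module
    · simp only [if_true, one_ne_zero, zero_ne_one,
        if_false, sub_mul, mul_sub, smul_mul_assoc, mul_smul_comm, smul_sub, smul_smul, mul_add,
        add_mul]
      module
    · simp only [if_true, one_ne_zero, zero_ne_one,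
        if_false, sub_mul, mul_sub, smul_mul_assoc, mul_smul_comm, smul_sub, smul_smul, mul_add,
        add_mul]
      linear_combination (norm := module) (-h') • (x * x' - x * y' - y * x' + y * y')
  · have hW : ∀ f : C₀(ℝ, E), rotW P M f t = 0 := fun f => rotW_neg hP hM f ht
    have hfg1 : (f * g) t = f t * g t := rfl
    have hfg2 : (f * g) (-t) = f (-t) * g (-t) := rfl
    simp only [hv, hW, hfg1, hfg2]
    rcases h2 i with rfl | rfl <;> rcases h2 j with rfl | rfl <;> simp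

theorem rotE_mul {P M : C₀(ℝ, E) →⋆ₙₐ[ℂ] C₀(ℝ, E)} (hP : ∀ f t, P f t = f |t|)
    (hM : ∀ f t, M f t = f (-|t|)) {p q : ℝ} (h : q ^ 2 = p * (1 - p)) (i j : Fin 2)
    (f g : C₀(ℝ, E)) :
    rotE P M p q i j (f * g) = ∑ k, rotE P M p q i k f * rotE P M p q k j g := by
  ext t
  rw [rotE_mul_apply hP hM h, Fin.sum_univ_two, Fin.sum_univ_two]
  rfl

/-- The rotated homomorphism. -/
noncomputable def rotHom {P M : C₀(ℝ, E) →⋆ₙₐ[ℂ] C₀(ℝ, E)} (hP : ∀ f t, P f t = f |t|)
    (hM : ∀ f t, M f t = f (-|t|)) {p q : ℝ} (h : q ^ 2 = p * (1 - p)) :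
    C₀(ℝ, E) →⋆ₙₐ[ℂ] Mt (Fin 2) (Unitization ℂ C₀(ℝ, E)) where
  toFun f := Mt.of fun i j => ((rotE P M p q i j f : C₀(ℝ, E)) : Unitization ℂ C₀(ℝ, E))
  map_smul' c f := by
    refine Mt.ext fun i j => ?_
    rw [Mt.of_apply, rotE_smul, Unitization.inr_smul]
    rfl
  map_zero' := by
    refine Mt.ext fun i j => ?_
    have h0 : rotE P M p q i j 0 = 0 := by
      have := rotE_smul P M p q i j 0 0
      rwa [zero_smul, zero_smul] at this
    rw [Mt.of_apply, h0, Unitization.inr_zero]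
    rfl
  map_add' f g := by
    refine Mt.ext fun i j => ?_
    rw [Mt.of_apply, rotE_add, Unitization.inr_add]
    rfl
  map_mul' f g := by
    refine Mt.ext fun i j => ?_
    rw [Mt.of_apply, rotE_mul hP hM h, Mt.mul_apply, Fin.sum_univ_two, Fin.sum_univ_two,
      Unitization.inr_add, Unitization.inr_mul, Unitization.inr_mul]
    rfl
  map_star' f := by
    refine Mt.ext fun i j => ?_
    rw [Mt.of_apply, rotE_star, Unitization.inr_star]
    rfl

theorem rotHom_apply {P M : C₀(ℝ, E) →⋆ₙₐ[ℂ] C₀(ℝ, E)} (hP : ∀ f t, P f t = f |t|)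
    (hM : ∀ f t, M f t = f (-|t|)) {p q : ℝ} (h : q ^ 2 = p * (1 - p)) (f : C₀(ℝ, E))
    (i j : Fin 2) :
    rotHom hP hM h f i j = ((rotE P M p q i j f : C₀(ℝ, E)) : Unitization ℂ C₀(ℝ, E)) := rfl

theorem rotHom_norm {P M : C₀(ℝ, E) →⋆ₙₐ[ℂ] C₀(ℝ, E)} (hP : ∀ f t, P f t = f |t|)
    (hM : ∀ f t, M f t = f (-|t|)) {p q p' q' : ℝ} (h : q ^ 2 = p * (1 - p))
    (h' : q' ^ 2 = p' * (1 - p')) (f : C₀(ℝ, E)) :
    ‖rotHom hP hM h f - rotHom hP hM h' f‖ ≤ (2 * |p - p'| + 2 * |q - q'|) * ‖rotW P M f‖ := by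
  refine (Mt.norm_le_sum _).trans ?_
  rw [Fin.sum_univ_two, Fin.sum_univ_two, Fin.sum_univ_two]
  have hn : ∀ i j, ‖(rotHom hP hM h f - rotHom hP hM h' f) i j‖ =
      ‖rotE P M p q i j f - rotE P M p' q' i j f‖ := by
    intro i j
    rw [Mt.sub_apply, rotHom_apply, rotHom_apply, ← Unitization.inr_sub]
    exact Unitization.norm_inr _
  have hs : ∀ (x : ℝ) (w : C₀(ℝ, E)), ‖(x : ℂ) • w‖ = |x| * ‖w‖ := by
    intro x w
    rw [norm_smul, Complex.norm_real, Real.norm_eq_abs]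
  have e00 : rotE P M p q 0 0 f - rotE P M p' q' 0 0 f = ((p' - p : ℝ) : ℂ) • rotW P M f := by
    simp only [rotE, if_true]
    push_cast
    module
  have e11 : rotE P M p q 1 1 f - rotE P M p' q' 1 1 f = ((p - p' : ℝ) : ℂ) • rotW P M f := by
    simp only [rotE, if_true, one_ne_zero, if_false]
    push_cast
    module
  have e01 : rotE P M p q 0 1 f - rotE P M p' q' 0 1 f = ((q - q' : ℝ) : ℂ) • rotW P M f := by
    simp only [rotE, zero_ne_one, if_false]
    push_cast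
    module
  have e10 : rotE P M p q 1 0 f - rotE P M p' q' 1 0 f = ((q - q' : ℝ) : ℂ) • rotW P M f := by
    simp only [rotE, one_ne_zero, if_false]
    push_cast
    module
  rw [hn, hn, hn, hn, e00, e11, e01, e10, hs, hs, hs, abs_sub_comm p' p]
  apply le_of_eq
  ring

theorem sin_cos_rel (a : ℝ) :
    (Real.cos a * Real.sin a) ^ 2 = Real.sin a ^ 2 * (1 - Real.sin a ^ 2) := by
  rw [← Real.cos_sq']
  ring

theorem sin_sq_lip (a b : ℝ) : |Real.sin a ^ 2 - Real.sin b ^ 2| ≤ 2 * |a - b| := by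
  have h1 := Real.abs_sin_sub_sin_le a b
  have h2 : Real.sin a ^ 2 - Real.sin b ^ 2 =
      (Real.sin a + Real.sin b) * (Real.sin a - Real.sin b) := by ring
  rw [h2, abs_mul]
  have h3 : |Real.sin a + Real.sin b| ≤ 2 := by
    refine (abs_add_le _ _).trans ?_
    linarith [Real.abs_sin_le_one a, Real.abs_sin_le_one b]
  exact mul_le_mul h3 h1 (abs_nonneg _) (by norm_num)

theorem cos_sin_lip (a b : ℝ) :
    |Real.cos a * Real.sin a - Real.cos b * Real.sin b| ≤ 2 * |a - b| := by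
  have h1 := Real.abs_sin_sub_sin_le a b
  have h1' := Real.abs_cos_sub_cos_le a b
  have h2 : Real.cos a * Real.sin a - Real.cos b * Real.sin b =
      Real.cos a * (Real.sin a - Real.sin b) + (Real.cos a - Real.cos b) * Real.sin b := by ring
  rw [h2]
  refine (abs_add_le _ _).trans ?_
  rw [abs_mul, abs_mul]
  have h3 : |Real.cos a| * |Real.sin a - Real.sin b| ≤ 1 * |a - b| :=
    mul_le_mul (Real.abs_cos_le_one a) h1 (abs_nonneg _) zero_le_one
  have h4 : |Real.cos a - Real.cos b| * |Real.sin b| ≤ |a - b| * 1 :=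
    mul_le_mul h1' (Real.abs_sin_le_one b) (abs_nonneg _) (abs_nonneg _)
  linarith

theorem homr : S_HOMR := by
  intro E _ P M hP hM F η hη
  -- the bound for `rotW`
  obtain ⟨B, hB0, hB⟩ : ∃ B : ℝ, 0 ≤ B ∧ ∀ f ∈ F, ‖rotW P M f‖ ≤ B :=
    ⟨∑ f ∈ F, ‖rotW P M f‖, Finset.sum_nonneg fun _ _ => norm_nonneg _, fun f hf =>
      Finset.single_le_sum (f := fun f => ‖rotW P M f‖) (fun _ _ => norm_nonneg _) hf⟩
  obtain ⟨m, hm⟩ := exists_nat_gt (8 * (Real.pi / 2) * B / η)
  have hm0 : (0 : ℝ) < m := lt_of_le_of_lt (by positivity) hm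
  set a : ℕ → ℝ := fun i => i * (Real.pi / 2) / m with ha
  refine ⟨m, fun i => rotHom hP hM (sin_cos_rel (a i)), ?_, ?_, ?_⟩
  · intro f
    have ha0 : a 0 = 0 := by simp [ha]
    refine Mt.ext fun i j => ?_
    rw [rotHom_apply]
    simp only [ha0, Real.sin_zero, Real.cos_zero, dX, Mt.dg, Mt.add_apply, Mt.single_apply]
    fin_cases i <;> fin_cases j <;> simp [rotE]
  · intro f
    have ham : a m = Real.pi / 2 := by
      simp only [ha]
      field_simp
    have e0 : flip E f - rotW P M f = P f := by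
      ext t
      show f (-t) - rotW P M f t = P f t
      rcases le_total 0 t with ht | ht
      · rw [rotW_pos hP hM f ht, hP, abs_of_nonneg ht]
        abel
      · rw [rotW_neg hP hM f ht, hP, abs_of_nonpos ht, sub_zero]
    have e1 : f + rotW P M f = M f := by
      ext t
      show f t + rotW P M f t = M f t
      rcases le_total 0 t with ht | ht
      · rw [rotW_pos hP hM f ht, hM, abs_of_nonneg ht]
        abel
      · rw [rotW_neg hP hM f ht, hM, abs_of_nonpos ht, neg_neg, add_zero]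
    refine Mt.ext fun i j => ?_
    rw [rotHom_apply]
    simp only [ham, Real.sin_pi_div_two, Real.cos_pi_div_two, dX, Mt.dg, Mt.add_apply,
      Mt.single_apply]
    fin_cases i <;> fin_cases j <;> simp [rotE, e0, e1]
  · intro f hf i hi
    refine (rotHom_norm hP hM _ _ f).trans ?_
    have h1 := sin_sq_lip (a i) (a (i + 1))
    have h2 := cos_sin_lip (a i) (a (i + 1))
    have h3 : |a i - a (i + 1)| = Real.pi / 2 / m := by
      have : a i - a (i + 1) = -(Real.pi / 2 / m) := by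
        simp only [ha]
        push_cast
        ring
      rw [this, abs_neg, abs_of_nonneg (by positivity)]
    rw [h3] at h1 h2
    have h4 : (2 * |Real.sin (a i) ^ 2 - Real.sin (a (i + 1)) ^ 2| +
        2 * |Real.cos (a i) * Real.sin (a i) - Real.cos (a (i + 1)) * Real.sin (a (i + 1))|) ≤
        8 * (Real.pi / 2 / m) := by linarith
    refine (mul_le_mul h4 (hB f hf) (norm_nonneg _) (by positivity)).trans ?_
    rw [div_lt_iff₀ hη] at hm
    have h5 : 8 * (Real.pi / 2 / m) * B = (8 * (Real.pi / 2) * B) / m := by ring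
    rw [h5, div_le_iff₀ hm0]
    linarith

end Pool.Agent.Helper36.CAR
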